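import Pool.Agent.Helper46.AF.LevExp
import Pool.Agent.Helper68.AF.CoreMain
import Pool.Agent.Helper6.AF.RR
import Pool.Agent.Helper4.AF.Meas
import Pool.Agent.Helper19.AF.Shift

/-! # Project AF (MP_9ee088_an), block E1 closed -/

set_option autoImplicit false
open MeasureTheory Real Set Filter Topology
open scoped ENNReal

namespace Pool.Agent.Helper46.AF

open Pool.Agent.Helper95.AF
open Pool.Agent.Helper46.QP (TT Td)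
open Pool.Agent.Helper82.AN (Ik Ow lawL wt bas eta Hw sq SepR)

/-- **E1**: expectation over `M` windows, level step -/
theorem lev_exp : ∃ C : ℝ, 1 ≤ C ∧ ∀ (d : ℕ) (γ : ℝ) (k : ℕ) (e : Fin k → Td d → ℝ) (U : Fin (k + 1) → ℝ) (α : Td d)
    (r₀ a ρ δ cap ρ' δ' cap' y p Q : ℝ) (n J M N P : ℕ) (β : Fin M → Td d), 0 < γ → (∀ i, Continuous (e i)) → U 0 ≠ 0 →
    0 < r₀ → SepR α r₀ (J * (n + 5)) M β → 1 ≤ N → 1 ≤ P →
    2 * ((M * (J * (n + 5)) : ℕ) : ℝ) ≤ (2 * N * r₀) ^ (2 * P) → 1 ≤ |a| → 0 < ρ → ρ ≤ 1 → 0 < ρ' → ρ' ≤ 1 → 0 < δ →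
    0 < δ' → 0 < p → p ≤ 1 / 4 → 0 ≤ cap → J * cap ≤ cap' → δ ≤ Real.exp (-(p * cap)) → 0 ≤ y → 0 ≤ Q →
    ρ / (10 * (|a| + 1)) ^ 5 ≤ |U 0| * Real.exp (-((P * N : ℝ) ^ γ)) / 20 →
    ∫⁻ w, ∏ l, (1 + ENNReal.ofReal Q * (Bs a ρ δ cap ρ' δ' cap' n J y).indicator 1 (sq α (frc γ e U w) (β l))) ∂lawL d ≤
      (ENNReal.ofReal (Real.exp J * (1 + Q * (4 / (δ' * ρ' ^ 2)) * Real.exp (-(p * y)) *
        (C * (|a| + 1) ^ 26 * (C / ρ) ^ (12 * p)) ^ J))) ^ M :=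
  lev_exp_of Pool.Agent.Helper68.AF.core (fun hc hδ b => Pool.Agent.Helper6.AF.rr_mem hc hδ b)
    (fun hδ hρ hρ1 b _ h0 h1 h2 => Pool.Agent.Helper6.AF.rr_not hδ hρ hρ1 b h0 h1 h2)
    (fun a n _ _ _ hc hδ => Pool.Agent.Helper4.AF.rr_meas a n hc hδ)
    (fun hγ _ _ _ hU _ _ _ _ _ _ _ _ hρ hS hN hp hint hs hs1 l m hm =>
      Pool.Agent.Helper19.AF.shift5 hγ hU hρ hS hN hp hint hs hs1 l m hm)

end Pool.Agent.Helper46.AF
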