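import Pool.Agent.Helper95.AF.Peel2
import Pool.Agent.Helper82.AN.Eta

/-! # Project AF (MP_9ee088_an), block E1: expectation over many windows, level step -/

set_option autoImplicit false
open MeasureTheory Real Set Filter Topology
open scoped ENNReal

namespace Pool.Agent.Helper46.AF

open Pool.Agent.Helper95.AF
open Pool.Agent.Helper18.UC (nn LL sqo rep toT)
open Pool.Agent.Helper46.QP (TT Td)
open Pool.Agent.Helper82.AN (Ik Ow lawL wt bas eta Hw sq SepR)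

variable {d : ℕ}

/-! ### basic facts -/

lemma un_prob : IsProbabilityMeasure un := by
  refine ⟨?_⟩
  unfold un
  simp

lemma un5_prob : IsProbabilityMeasure un5 := by
  have := un_prob
  unfold un5
  infer_instance

lemma lawL_prob : IsProbabilityMeasure (lawL d) := by
  unfold lawL
  infer_instance

lemma po_congr (a : ℝ) {b b' : ℕ → ℝ} (n : ℕ) (h : ∀ j < n, b j = b' j) (q : ℝ × ℝ) : po a b n q = po a b' n q := by
  induction n with
  | zero => rfl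
  | succ n ih =>
    show st a (b n) (po a b n q) = st a (b' n) (po a b' n q)
    rw [ih (fun j hj => h j (by omega)), h n (by omega)]

lemma pM_congr (a : ℝ) {b b' : ℕ → ℝ} (n : ℕ) (h : ∀ j < n, b j = b' j) (q : ℝ × ℝ) : pM a b n q = pM a b' n q := by
  induction n with
  | zero => rfl
  | succ n ih =>
    show mt a (po a b n q).1 * pM a b n q = mt a (po a b' n q).1 * pM a b' n q
    rw [ih (fun j hj => h j (by omega)), po_congr a n (fun j hj => h j (by omega))]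

lemma rr_congr46 {a : ℝ} {n : ℕ} {ρ δ cap : ℝ} {b b' : ℕ → ℝ} (h : ∀ j < n, b j = b' j) :
    rr a n ρ δ cap b = rr a n ρ δ cap b' := by
  have h1 : ∀ r, bad a b n r = bad a b' n r := fun r => by
    unfold bad
    simp only [pM_congr a n h]
  unfold rr Den
  simp only [h1]

lemma po_cont (a : ℝ) (n : ℕ) : Continuous fun p : (ℕ → ℝ) × (ℝ × ℝ) => po a p.1 n p.2 := by
  induction n with
  | zero => exact continuous_snd
  | succ n ih =>
    show Continuous fun p : (ℕ → ℝ) × (ℝ × ℝ) => st a (p.1 n) (po a p.1 n p.2)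
    unfold st
    fun_prop

lemma pM_cont (a : ℝ) (n : ℕ) : Continuous fun p : (ℕ → ℝ) × (ℝ × ℝ) => pM a p.1 n p.2 := by
  induction n with
  | zero => exact continuous_const
  | succ n ih =>
    show Continuous fun p : (ℕ → ℝ) × (ℝ × ℝ) => mt a (po a p.1 n p.2).1 * pM a p.1 n p.2
    refine Continuous.matrix_mul ?_ ih
    have hp := po_cont a n
    unfold Pool.Agent.Helper95.AF.mt
    refine continuous_matrix fun i j => ?_
    fin_cases i <;> fin_cases j <;> simp <;> fun_prop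

lemma nv_eq (a : ℝ) (b : ℕ → ℝ) (n : ℕ) (z : ℝ × ℝ) :
    nv ((pM a b n z).mulVec ![1, 0]) = |pM a b n z 0 0| + |pM a b n z 1 0| := by
  simp [nv, Matrix.mulVec, dotProduct, Fin.sum_univ_two]

lemma vf_meas (a p : ℝ) (n : ℕ) :
    Measurable fun q : (ℕ → ℝ) × (ℝ × ℝ) => ip p (nv ((pM a q.1 n q.2).mulVec ![1, 0])) := by
  have h := pM_cont a n
  have h0 : Continuous fun q : (ℕ → ℝ) × (ℝ × ℝ) => pM a q.1 n q.2 0 0 := h.matrix_elem 0 0
  have h1 : Continuous fun q : (ℕ → ℝ) × (ℝ × ℝ) => pM a q.1 n q.2 1 0 := h.matrix_elem 1 0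
  simp only [nv_eq]
  unfold ip
  exact (ENNReal.measurable_ofReal.comp (h0.abs.add h1.abs).measurable).pow_const _

lemma vf_meas1 (a p : ℝ) (n : ℕ) (b : ℕ → ℝ) :
    Measurable fun z : ℝ × ℝ => ip p (nv ((pM a b n z).mulVec ![1, 0])) := by
  have h : Measurable ((fun q : (ℕ → ℝ) × (ℝ × ℝ) => ip p (nv ((pM a q.1 n q.2).mulVec ![1, 0]))) ∘ Prod.mk b) :=
    (vf_meas a p n).comp measurable_prodMk_left
  exact h

/-- the integral over the initial points -/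
noncomputable def Iz (a p : ℝ) (m : ℕ) (b : ℕ → ℝ) : ℝ≥0∞ :=
  ∫⁻ z in sqo (0, 0) 2, ip p (nv ((pM a b m z).mulVec ![1, 0]))

lemma Iz_meas (a p : ℝ) (m : ℕ) : Measurable (Iz a p m) := by
  unfold Iz
  exact (vf_meas a p m).lintegral_prod_right'

lemma Iz_congr {a p : ℝ} {m : ℕ} {b b' : ℕ → ℝ} (h : ∀ j < m, b j = b' j) : Iz a p m b = Iz a p m b' := by
  unfold Iz
  simp only [pM_congr a m h]

/-- the sum of the functionals of the first blocks -/
noncomputable def sg (a ρ δ cap : ℝ) (n j : ℕ) (b : ℕ → ℝ) : ℝ :=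
  ∑ i ∈ Finset.range j, rr a n ρ δ cap (shb b (i * (n + 5) + 5))

lemma sg_congr {a ρ δ cap : ℝ} {n j : ℕ} {b b' : ℕ → ℝ} (h : ∀ k < j * (n + 5), b k = b' k) :
    sg a ρ δ cap n j b = sg a ρ δ cap n j b' := by
  unfold sg
  refine Finset.sum_congr rfl fun i hi => rr_congr46 fun k hk => ?_
  have h1 : (i + 1) * (n + 5) ≤ j * (n + 5) := Nat.mul_le_mul_right _ (Finset.mem_range.1 hi)
  unfold shb
  refine h _ ?_
  have : (i + 1) * (n + 5) = i * (n + 5) + (n + 5) := by ring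
  omega

lemma sg_up5 {a ρ δ cap s : ℝ} {n j : ℕ} {b : ℕ → ℝ} (t : Fin 5 → ℝ) :
    sg a ρ δ cap n (j + 1) (up5 b (j * (n + 5)) s t) = sg a ρ δ cap n (j + 1) b := by
  unfold sg
  refine Finset.sum_congr rfl fun i hi => rr_congr46 fun k hk => ?_
  have h1 : i < j + 1 := Finset.mem_range.1 hi
  unfold shb up5
  rw [dif_neg, add_zero]
  rintro ⟨h2, h3⟩
  rcases Nat.lt_succ_iff_lt_or_eq.1 h1 with h4 | h4
  · have h5 : (i + 1) * (n + 5) ≤ j * (n + 5) := Nat.mul_le_mul_right _ h4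
    have : (i + 1) * (n + 5) = i * (n + 5) + (n + 5) := by ring
    omega
  · subst h4
    omega

/-- the functional of the peeling -/
noncomputable def Ph (a p ρ δ cap : ℝ) (n J : ℕ) (K R : ℝ≥0∞) (j : ℕ) (b : ℕ → ℝ) : ℝ≥0∞ :=
  1 + K * R ^ (J - j) * (ENNReal.ofReal (Real.exp (p * sg a ρ δ cap n j b)) * Iz a p (j * (n + 5)) b)

lemma Ph_congr {a p ρ δ cap : ℝ} {n J : ℕ} {K R : ℝ≥0∞} {j : ℕ} {b b' : ℕ → ℝ} (h : ∀ k < j * (n + 5), b k = b' k) :
    Ph a p ρ δ cap n J K R j b = Ph a p ρ δ cap n J K R j b' := by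
  unfold Ph
  rw [sg_congr h, Iz_congr h]

/-! ### the block -/

lemma up5_meas (b : ℕ → ℝ) (m : ℕ) (s : ℝ) : Measurable fun t : Fin 5 → ℝ => up5 b m s t := by
  refine measurable_pi_iff.2 fun j => ?_
  unfold up5
  by_cases h : m ≤ j ∧ j < m + 5
  · simp only [dif_pos h]
    fun_prop
  · simp only [dif_neg h]
    fun_prop

lemma vf_meas2 (a p : ℝ) (N : ℕ) (b : ℕ → ℝ) (m : ℕ) (s : ℝ) :
    Measurable fun q : (Fin 5 → ℝ) × (ℝ × ℝ) => ip p (nv ((pM a (up5 b m s q.1) N q.2).mulVec ![1, 0])) := by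
  have h0 : Measurable fun q : (Fin 5 → ℝ) × (ℝ × ℝ) => (up5 b m s q.1, q.2) :=
    ((up5_meas b m s).comp measurable_fst).prodMk measurable_snd
  have h : Measurable ((fun q : (ℕ → ℝ) × (ℝ × ℝ) => ip p (nv ((pM a q.1 N q.2).mulVec ![1, 0]))) ∘
      fun q : (Fin 5 → ℝ) × (ℝ × ℝ) => (up5 b m s q.1, q.2)) := (vf_meas a p N).comp h0
  exact h

/-- one block of the window -/
lemma Ph_step {a p ρ δ cap C₀ : ℝ} {n J : ℕ} {K R : ℝ≥0∞} (hC : 1 ≤ C₀) (hρ : 0 < ρ) (hp : 0 < p)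
    (hcap : δ ≤ Real.exp (-(p * cap)))
    (hR : R = ENNReal.ofReal (C₀ * (|a| + 1) ^ 26 * (C₀ / ρ) ^ (12 * p)))
    (core : ∀ (r : ℝ) (m : ℕ) (b : ℕ → ℝ) (q : ℝ × ℝ), 0 ≤ r → δ ≤ Real.exp (-(p * r)) → Den a (shb b (m + 5)) n ρ δ r →
      ∫⁻ t, ip p (nv ((pM a (up5 b m (ρ / (10 * (|a| + 1)) ^ 5) t) (m + 5 + n) q).mulVec ![1, 0])) ∂un5 ≤
        ENNReal.ofReal (C₀ * (|a| + 1) ^ 26 * (C₀ / ρ) ^ (12 * p) * Real.exp (-(p * r))) *
          ip p (nv ((pM a b m q).mulVec ![1, 0])))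
    (hr : ∀ b : ℕ → ℝ, 0 ≤ rr a n ρ δ cap b ∧ rr a n ρ δ cap b ≤ cap ∧ Den a b n ρ δ (rr a n ρ δ cap b))
    {j : ℕ} (hj : j < J) (b : ℕ → ℝ) :
    ∫⁻ t, Ph a p ρ δ cap n J K R (j + 1) (up5 b (j * (n + 5)) (ρ / (10 * (|a| + 1)) ^ 5) t) ∂un5 ≤
      Ph a p ρ δ cap n J K R j b := by
  have := un5_prob
  set s := ρ / (10 * (|a| + 1)) ^ 5 with hs
  set m := j * (n + 5) with hm
  have hm1 : (j + 1) * (n + 5) = m + 5 + n := by rw [hm]; ring
  set r := rr a n ρ δ cap (shb b (m + 5)) with hrdef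
  obtain ⟨r0, r1, r2⟩ := hr (shb b (m + 5))
  have hI : ∫⁻ t, Iz a p ((j + 1) * (n + 5)) (up5 b m s t) ∂un5 ≤ R * ENNReal.ofReal (Real.exp (-(p * r))) * Iz a p m b := by
    have hmeas := vf_meas2 a p (m + 5 + n) b m s
    rw [hm1]
    unfold Iz
    rw [lintegral_lintegral_swap hmeas.aemeasurable]
    have hb : ∀ z : ℝ × ℝ, ∫⁻ t, ip p (nv ((pM a (up5 b m s t) (m + 5 + n) z).mulVec ![1, 0])) ∂un5 ≤
        R * ENNReal.ofReal (Real.exp (-(p * r))) * ip p (nv ((pM a b m z).mulVec ![1, 0])) := by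
      intro z
      have h1 : δ ≤ Real.exp (-(p * r)) := hcap.trans (Real.exp_le_exp.2 (by
        have := mul_le_mul_of_nonneg_left r1 hp.le
        linarith))
      refine (core r m b z r0 h1 r2).trans (le_of_eq ?_)
      rw [hR, ← ENNReal.ofReal_mul (by positivity)]
    refine (lintegral_mono hb).trans (le_of_eq ?_)
    rw [lintegral_const_mul _ (vf_meas1 a p m b)]
  have hmI : Measurable fun t : Fin 5 → ℝ => Iz a p ((j + 1) * (n + 5)) (up5 b m s t) := (Iz_meas a p _).comp (up5_meas b m s)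
  unfold Ph
  simp only [hm, sg_up5]
  rw [← hm, lintegral_add_left measurable_const, lintegral_const, measure_univ, mul_one]
  rw [lintegral_const_mul _ (hmI.const_mul _), lintegral_const_mul _ hmI]
  have hsg : sg a ρ δ cap n (j + 1) b = sg a ρ δ cap n j b + r := by
    unfold sg
    rw [Finset.sum_range_succ]
  have hE : ENNReal.ofReal (Real.exp (p * sg a ρ δ cap n (j + 1) b)) * ENNReal.ofReal (Real.exp (-(p * r))) =
      ENNReal.ofReal (Real.exp (p * sg a ρ δ cap n j b)) := by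
    rw [← ENNReal.ofReal_mul (Real.exp_pos _).le, ← Real.exp_add, hsg]
    congr 2
    ring
  have hJ : R ^ (J - j) = R ^ (J - (j + 1)) * R := by
    rw [← pow_succ]
    congr 1
    omega
  refine add_le_add le_rfl ?_
  calc K * R ^ (J - (j + 1)) * (ENNReal.ofReal (Real.exp (p * sg a ρ δ cap n (j + 1) b)) *
        ∫⁻ t, Iz a p ((j + 1) * (n + 5)) (up5 b m s t) ∂un5)
      ≤ K * R ^ (J - (j + 1)) * (ENNReal.ofReal (Real.exp (p * sg a ρ δ cap n (j + 1) b)) *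
        (R * ENNReal.ofReal (Real.exp (-(p * r))) * Iz a p m b)) := by gcongr
    _ = K * (R ^ (J - (j + 1)) * R) * (ENNReal.ofReal (Real.exp (p * sg a ρ δ cap n (j + 1) b)) *
        ENNReal.ofReal (Real.exp (-(p * r))) * Iz a p m b) := by ring
    _ = K * R ^ (J - j) * (ENNReal.ofReal (Real.exp (p * sg a ρ δ cap n j b)) * Iz a p m b) := by
        rw [hE, hJ]

/-- start of the peeling: the exceptional event -/
lemma Ph_top {a p ρ δ cap ρ' δ' cap' y Q : ℝ} {n J : ℕ} {R : ℝ≥0∞} (hp : 0 < p) (hδ' : 0 < δ') (hρ' : 0 < ρ') (hy : 0 ≤ y)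
    (hQ : 0 ≤ Q) (hJ : J * cap ≤ cap')
    (hr : ∀ b : ℕ → ℝ, rr a n ρ δ cap b ≤ cap)
    (hr0 : ∀ b : ℕ → ℝ, 0 ≤ rr a (J * (n + 5)) ρ' δ' cap' b)
    (hn : ∀ (b : ℕ → ℝ) (r : ℝ), 0 ≤ r → rr a (J * (n + 5)) ρ' δ' cap' b < r → r ≤ cap' →
      ENNReal.ofReal (δ' * ρ' ^ 2) ≤ volume (bad a b (J * (n + 5)) r ∩ sqo (0, 0) 2)) (b : ℕ → ℝ) :
    1 + ENNReal.ofReal Q * (Bs a ρ δ cap ρ' δ' cap' n J y).indicator 1 b ≤
      Ph a p ρ δ cap n J (ENNReal.ofReal (Q * (1 / (δ' * ρ' ^ 2)) * Real.exp (-(p * y)))) R J b := by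
  unfold Ph
  rw [Nat.sub_self, pow_zero, mul_one]
  by_cases hb : b ∈ Bs a ρ δ cap ρ' δ' cap' n J y
  · rw [Set.indicator_of_mem hb, Pi.one_apply, mul_one]
    gcongr
    have hb1 : rr a (J * (n + 5)) ρ' δ' cap' b < sg a ρ δ cap n J b - y := hb
    set r := sg a ρ δ cap n J b - y with hrd
    have hsum : sg a ρ δ cap n J b ≤ J * cap := by
      unfold sg
      refine (Finset.sum_le_sum fun i _ => hr _).trans ?_
      rw [Finset.sum_const, Finset.card_range, nsmul_eq_mul]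
    have h1 := hn b r ((hr0 b).trans hb1.le) hb1 (by linarith)
    have hT : MeasurableSet (sqo (0, 0) 2) := measurableSet_Ico.prod measurableSet_Ico
    have hm1 := vf_meas1 a p (J * (n + 5)) b
    have h2 := mul_meas_ge_le_lintegral (μ := volume.restrict (sqo (0, 0) 2)) hm1 (ENNReal.ofReal (Real.exp (-(p * r))))
    have h3 : volume (bad a b (J * (n + 5)) r ∩ sqo (0, 0) 2) ≤
        (volume.restrict (sqo (0, 0) 2)) {z | ENNReal.ofReal (Real.exp (-(p * r))) ≤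
          ip p (nv ((pM a b (J * (n + 5)) z).mulVec ![1, 0]))} := by
      rw [Measure.restrict_apply' hT]
      refine measure_mono (Set.inter_subset_inter_left _ fun z hz => ?_)
      have hz1 : Real.log (nn (pM a b (J * (n + 5)) z)) < r := hz
      show ENNReal.ofReal (Real.exp (-(p * r))) ≤ ip p (nv ((pM a b (J * (n + 5)) z).mulVec ![1, 0]))
      have h4 : nv ((pM a b (J * (n + 5)) z).mulVec ![1, 0]) ≤ Real.exp r := by
        rw [nv_eq]
        have h5 : |pM a b (J * (n + 5)) z 0 0| + |pM a b (J * (n + 5)) z 1 0| ≤ nn (pM a b (J * (n + 5)) z) := by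
          unfold nn
          have := abs_nonneg (pM a b (J * (n + 5)) z 0 1)
          have := abs_nonneg (pM a b (J * (n + 5)) z 1 1)
          linarith
        have h6 : 0 ≤ nn (pM a b (J * (n + 5)) z) := by
          unfold nn
          positivity
        rcases h6.eq_or_lt with h7 | h7
        · rw [← h7] at h5
          exact h5.trans (Real.exp_pos _).le
        · exact h5.trans ((Real.log_lt_iff_lt_exp h7).1 hz1).le
      unfold ip
      have h5 : ENNReal.ofReal (Real.exp (-(p * r))) = ENNReal.ofReal (Real.exp r) ^ (-p) := by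
        rw [ENNReal.ofReal_rpow_of_pos (Real.exp_pos _), ← Real.exp_mul]
        congr 2
        ring
      rw [h5, ENNReal.rpow_neg, ENNReal.rpow_neg]
      gcongr
    have h4 : ENNReal.ofReal (Real.exp (-(p * r))) * ENNReal.ofReal (δ' * ρ' ^ 2) ≤ Iz a p (J * (n + 5)) b := by
      refine le_trans ?_ h2
      gcongr
      exact h1.trans h3
    have hc : 0 < δ' * ρ' ^ 2 := by positivity
    calc ENNReal.ofReal Q = ENNReal.ofReal (Q * (1 / (δ' * ρ' ^ 2)) * Real.exp (-(p * y))) *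
          (ENNReal.ofReal (Real.exp (p * sg a ρ δ cap n J b)) *
          (ENNReal.ofReal (Real.exp (-(p * r))) * ENNReal.ofReal (δ' * ρ' ^ 2))) := by
          rw [← ENNReal.ofReal_mul (Real.exp_pos _).le, ← ENNReal.ofReal_mul (Real.exp_pos _).le,
            ← ENNReal.ofReal_mul (by positivity)]
          congr 1
          have e1 : Real.exp (-(p * y)) * Real.exp (p * sg a ρ δ cap n J b) * Real.exp (-(p * r)) = 1 := by
            rw [← Real.exp_add, ← Real.exp_add, Real.exp_eq_one_iff, hrd]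
            ring
          calc Q = Q * (1 / (δ' * ρ' ^ 2) * (δ' * ρ' ^ 2)) *
                (Real.exp (-(p * y)) * Real.exp (p * sg a ρ δ cap n J b) * Real.exp (-(p * r))) := by
                rw [e1, one_div, inv_mul_cancel₀ hc.ne', mul_one, mul_one]
            _ = _ := by ring
      _ ≤ _ := by gcongr
  · rw [Set.indicator_of_notMem hb, mul_zero, add_zero]
    exact le_self_add

/-- end of the peeling -/
lemma Ph_zero {a p ρ δ cap : ℝ} {n J : ℕ} {K R : ℝ≥0∞} (b : ℕ → ℝ) :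
    Ph a p ρ δ cap n J K R 0 b = 1 + K * R ^ J * 4 := by
  unfold Ph sg Iz
  have h1 : ∀ z, pM a b (0 * (n + 5)) z = 1 := fun z => by rw [zero_mul]; rfl
  have h2 : ip p (nv ((1 : Matrix (Fin 2) (Fin 2) ℝ).mulVec ![1, 0])) = 1 := by
    rw [Matrix.one_mulVec]
    simp [nv, ip]
  simp only [h1, h2]
  rw [Finset.sum_range_zero, mul_zero, Real.exp_zero, ENNReal.ofReal_one, one_mul, Nat.sub_zero, lintegral_const, one_mul,
    Measure.restrict_apply_univ]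
  congr 2
  unfold sqo
  rw [Measure.volume_eq_prod, Measure.prod_prod]
  simp only [Real.volume_Ico]
  norm_num

/-! ### the random force -/

lemma frc_meas {γ : ℝ} {k : ℕ} (e : Fin k → Td d → ℝ) (U : Fin (k + 1) → ℝ) (θ : Td d) :
    Measurable fun w : Ow d => frc γ e U w θ := by
  unfold frc
  have h : Measurable fun w : Ow d => eta γ w θ := by
    have h1 : Measurable ((fun p : Ow d × Td d => eta γ p.1 p.2) ∘ fun w : Ow d => (w, θ)) :=
      (Pool.Agent.Helper82.AN.eta_meas γ).comp measurable_prodMk_right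
    exact h1
  exact (h.const_mul _).const_add _

lemma sq_meas {γ : ℝ} {k : ℕ} (e : Fin k → Td d → ℝ) (U : Fin (k + 1) → ℝ) (α β : Td d) :
    Measurable fun w : Ow d => sq α (frc γ e U w) β := by
  refine measurable_pi_iff.2 fun j => ?_
  unfold Pool.Agent.Helper82.AN.sq
  exact frc_meas e U _

lemma sg_meas {a ρ δ cap : ℝ} {n : ℕ} (hm : Measurable (rr a n ρ δ cap)) (j : ℕ) : Measurable (sg a ρ δ cap n j) := by
  unfold sg
  refine Finset.measurable_sum _ fun i _ => ?_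
  have h : Measurable fun b : ℕ → ℝ => shb b (i * (n + 5) + 5) := by
    refine measurable_pi_iff.2 fun k => ?_
    unfold shb
    exact measurable_pi_apply _
  exact hm.comp h

lemma Ph_meas {a p ρ δ cap : ℝ} {n J : ℕ} {K R : ℝ≥0∞} (hm : Measurable (rr a n ρ δ cap)) (j : ℕ) :
    Measurable (Ph a p ρ δ cap n J K R j) := by
  unfold Ph
  exact (((ENNReal.measurable_ofReal.comp (Real.measurable_exp.comp ((sg_meas hm j).const_mul p))).mul
    (Iz_meas a p _)).const_mul _).const_add _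

/-- **E1** from the blocks `core`, `rr_mem`, `rr_not`, `rr_meas`, `shift5` -/
theorem lev_exp_of
    (core : ∃ C : ℝ, 1 ≤ C ∧ ∀ (a ρ p δ r : ℝ) (n m : ℕ) (b : ℕ → ℝ) (q : ℝ × ℝ), 1 ≤ |a| → 0 < ρ → ρ ≤ 1 →
      0 < p → p ≤ 1 / 4 → 0 ≤ r → 0 ≤ δ → δ ≤ Real.exp (-(p * r)) → Den a (shb b (m + 5)) n ρ δ r →
      ∫⁻ t, ip p (nv ((pM a (up5 b m (ρ / (10 * (|a| + 1)) ^ 5) t) (m + 5 + n) q).mulVec ![1, 0])) ∂un5 ≤
        ENNReal.ofReal (C * (|a| + 1) ^ 26 * (C / ρ) ^ (12 * p) * Real.exp (-(p * r))) *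
          ip p (nv ((pM a b m q).mulVec ![1, 0])))
    (rr_mem : ∀ {a : ℝ} {n : ℕ} {ρ δ cap : ℝ}, 0 ≤ cap → 0 ≤ δ → ∀ b : ℕ → ℝ,
      0 ≤ rr a n ρ δ cap b ∧ rr a n ρ δ cap b ≤ cap ∧ Den a b n ρ δ (rr a n ρ δ cap b))
    (rr_not : ∀ {a : ℝ} {n : ℕ} {ρ δ cap : ℝ}, 0 ≤ δ → 0 < ρ → ρ ≤ 1 → ∀ (b : ℕ → ℝ) {r : ℝ}, 0 ≤ r →
      rr a n ρ δ cap b < r → r ≤ cap → ENNReal.ofReal (δ * ρ ^ 2) ≤ volume (bad a b n r ∩ sqo (0, 0) 2))
    (rr_meas : ∀ (a : ℝ) (n : ℕ) {ρ δ cap : ℝ}, 0 ≤ cap → 0 ≤ δ → Measurable (rr a n ρ δ cap))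
    (shift5 : ∀ {d : ℕ} {γ : ℝ}, 0 < γ → ∀ {k : ℕ} {e : Fin k → Td d → ℝ} {U : Fin (k + 1) → ℝ}, U 0 ≠ 0 →
      ∀ {α : Td d} {ρ s : ℝ} {n M N p : ℕ} {β : Fin M → Td d}, 0 < ρ → SepR α ρ n M β → 1 ≤ N → 1 ≤ p →
      2 * ((M * n : ℕ) : ℝ) ≤ (2 * N * ρ) ^ (2 * p) → 0 ≤ s →
      s ≤ |U 0| * Real.exp (-((p * N : ℝ) ^ γ)) / 20 → ∀ (l : Fin M) (m : ℕ), m + 5 ≤ n →
      ∃ S : Ow d → (Fin 5 → ℝ) → Ow d, (Measurable fun q : Ow d × (Fin 5 → ℝ) => S q.1 q.2) ∧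
        (∀ G : Ow d → ℝ≥0∞, Measurable G →
          ∫⁻ w, G w ∂lawL d ≤ ENNReal.ofReal (Real.exp 1) * ∫⁻ w, ∫⁻ t, G (S w t) ∂un5 ∂lawL d) ∧
        ∀ w, Hw γ w ≠ ∞ → ∀ t,
          (∀ j < n, sq α (frc γ e U (S w t)) (β l) j = up5 (sq α (frc γ e U w) (β l)) m s t j) ∧
          ∀ l', l' ≠ l → ∀ j < n, sq α (frc γ e U (S w t)) (β l') j = sq α (frc γ e U w) (β l') j) :
    ∃ C : ℝ, 1 ≤ C ∧ ∀ (d : ℕ) (γ : ℝ) (k : ℕ) (e : Fin k → Td d → ℝ) (U : Fin (k + 1) → ℝ) (α : Td d)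
    (r₀ a ρ δ cap ρ' δ' cap' y p Q : ℝ) (n J M N P : ℕ) (β : Fin M → Td d), 0 < γ → (∀ i, Continuous (e i)) → U 0 ≠ 0 →
    0 < r₀ → SepR α r₀ (J * (n + 5)) M β → 1 ≤ N → 1 ≤ P →
    2 * ((M * (J * (n + 5)) : ℕ) : ℝ) ≤ (2 * N * r₀) ^ (2 * P) → 1 ≤ |a| → 0 < ρ → ρ ≤ 1 → 0 < ρ' → ρ' ≤ 1 → 0 < δ →
    0 < δ' → 0 < p → p ≤ 1 / 4 → 0 ≤ cap → J * cap ≤ cap' → δ ≤ Real.exp (-(p * cap)) → 0 ≤ y → 0 ≤ Q →
    ρ / (10 * (|a| + 1)) ^ 5 ≤ |U 0| * Real.exp (-((P * N : ℝ) ^ γ)) / 20 →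
    ∫⁻ w, ∏ l, (1 + ENNReal.ofReal Q * (Bs a ρ δ cap ρ' δ' cap' n J y).indicator 1 (sq α (frc γ e U w) (β l))) ∂lawL d ≤
      (ENNReal.ofReal (Real.exp J * (1 + Q * (4 / (δ' * ρ' ^ 2)) * Real.exp (-(p * y)) *
        (C * (|a| + 1) ^ 26 * (C / ρ) ^ (12 * p)) ^ J))) ^ M := by
  obtain ⟨C, hC, hcore⟩ := core
  refine ⟨C, hC, ?_⟩
  intro d γ k e U α r₀ a ρ δ cap ρ' δ' cap' y p Q n J M N P β hγ he hU hr₀ hS hN hP hint ha hρ hρ1 hρ' hρ1' hδ hδ' hp hp1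
    hcap hJ hδc hy hQ hs
  have := un5_prob
  have := lawL_prob (d := d)
  have hcap' : 0 ≤ cap' := le_trans (mul_nonneg (Nat.cast_nonneg _) hcap) hJ
  set s := ρ / (10 * (|a| + 1)) ^ 5 with hsd
  have hs0 : 0 ≤ s := by positivity
  have hmr := rr_meas a n (ρ := ρ) hcap hδ.le
  set R := ENNReal.ofReal (C * (|a| + 1) ^ 26 * (C / ρ) ^ (12 * p)) with hR
  set K := ENNReal.ofReal (Q * (1 / (δ' * ρ' ^ 2)) * Real.exp (-(p * y))) with hK
  have hidx : ∀ j : ℕ, j < J → j * (n + 5) + 5 ≤ J * (n + 5) := fun j hj => by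
    have h5 : (j + 1) * (n + 5) ≤ J * (n + 5) := Nat.mul_le_mul_right _ hj
    have : (j + 1) * (n + 5) = j * (n + 5) + (n + 5) := by ring
    omega
  have hsh : ∀ (l : Fin M) (j : ℕ), ∃ S : Ow d → (Fin 5 → ℝ) → Ow d, (Measurable fun q : Ow d × (Fin 5 → ℝ) => S q.1 q.2) ∧
      (j < J → (∀ G : Ow d → ℝ≥0∞, Measurable G →
          ∫⁻ w, G w ∂lawL d ≤ ENNReal.ofReal (Real.exp 1) * ∫⁻ w, ∫⁻ t, G (S w t) ∂un5 ∂lawL d) ∧
        ∀ w, Hw γ w ≠ ∞ → ∀ t,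
          (∀ i < J * (n + 5), sq α (frc γ e U (S w t)) (β l) i = up5 (sq α (frc γ e U w) (β l)) (j * (n + 5)) s t i) ∧
          ∀ l', l' ≠ l → ∀ i < J * (n + 5), sq α (frc γ e U (S w t)) (β l') i = sq α (frc γ e U w) (β l') i) := by
    intro l j
    by_cases hj : j < J
    · obtain ⟨S, hS1, hS2, hS3⟩ := shift5 hγ (e := e) hU hr₀ hS hN hP hint hs0 hs l (j * (n + 5)) (hidx j hj)
      exact ⟨S, hS1, fun _ => ⟨hS2, hS3⟩⟩
    · exact ⟨fun w _ => w, measurable_fst, fun h => absurd h hj⟩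
  choose S hSm hS1 using hsh
  have hkey := peel2 (μ := lawL d) (τ := un5) (M := M) (J := J)
    (φ := fun l j w => Ph a p ρ δ cap n J K R j (sq α (frc γ e U w) (β l)))
    (fun l j => (Ph_meas hmr j).comp (sq_meas e U α (β l))) (S := S) hSm (C := ENNReal.ofReal (Real.exp 1))
    (Z := {w | Hw γ w ≠ ∞}) (Pool.Agent.Helper82.AN.Hw_ae hγ) (fun l j hj => (hS1 l j hj).1)
    (fun l l' hl j hj i hi w hw t => Ph_congr fun q hq =>
      ((hS1 l j hj).2 w hw t).2 l' hl q (hq.trans_le (Nat.mul_le_mul_right _ hi)))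
    (fun l j hj w hw => by
      have h1 : ∀ t, Ph a p ρ δ cap n J K R (j + 1) (sq α (frc γ e U (S l j w t)) (β l)) =
          Ph a p ρ δ cap n J K R (j + 1) (up5 (sq α (frc γ e U w) (β l)) (j * (n + 5)) s t) := fun t =>
        Ph_congr fun q hq => ((hS1 l j hj).2 w hw t).1 q (hq.trans_le (Nat.mul_le_mul_right _ hj))
      simp only [h1]
      exact Ph_step hC hρ hp hδc hR
        (fun r m b q h0 h1 h2 => hcore a ρ p δ r n m b q ha hρ hρ1 hp hp1 h0 hδ.le h1 h2) (fun b => rr_mem hcap hδ.le b) hj _)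
  have htop : ∀ w : Ow d, ∏ l, (1 + ENNReal.ofReal Q *
      (Bs a ρ δ cap ρ' δ' cap' n J y).indicator 1 (sq α (frc γ e U w) (β l))) ≤
      ∏ l, Ph a p ρ δ cap n J K R J (sq α (frc γ e U w) (β l)) := fun w =>
    Finset.prod_le_prod' fun l _ => Ph_top hp hδ' hρ' hy hQ hJ (fun b => (rr_mem hcap hδ.le b).2.1)
      (fun b => (rr_mem hcap' hδ'.le b).1) (fun b r h0 h1 h2 => rr_not hδ'.le hρ' hρ1' b h0 h1 h2) _
  refine (lintegral_mono htop).trans (hkey.trans (le_of_eq ?_))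
  simp only [Ph_zero]
  rw [Finset.prod_const, Finset.card_univ, Fintype.card_fin, lintegral_const, measure_univ, mul_one]
  rw [mul_comm M J, pow_mul, ← mul_pow]
  congr 1
  rw [← ENNReal.ofReal_pow (Real.exp_pos _).le, ← Real.exp_nat_mul, mul_one]
  have hR0 : 0 ≤ C * (|a| + 1) ^ 26 * (C / ρ) ^ (12 * p) := by positivity
  have hK0 : 0 ≤ Q * (1 / (δ' * ρ' ^ 2)) * Real.exp (-(p * y)) := by positivity
  rw [hR, hK, ← ENNReal.ofReal_pow hR0, ← ENNReal.ofReal_mul hK0]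
  have h4 : (4 : ℝ≥0∞) = ENNReal.ofReal 4 := by norm_num
  rw [h4, ← ENNReal.ofReal_mul (by positivity)]
  have e1 : (1 : ℝ≥0∞) = ENNReal.ofReal 1 := ENNReal.ofReal_one.symm
  rw [e1]
  rw [← ENNReal.ofReal_add zero_le_one (by positivity), ← ENNReal.ofReal_mul (Real.exp_pos _).le]
  congr 2
  ring

end Pool.Agent.Helper46.AF
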